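import Pool.Agent.N916.HB.SE4

/-!
# Project HB, part SE: the theorem
-/

set_option linter.all false

namespace Pool.Agent.N916.HB

open MeasureTheory Filter Pool.Agent.W792.LL Pool.Agent.W792.WA Pool.Agent.N659.HB
open scoped Topology ENNReal

noncomputable section

/-- the relation between the phases and the self-energy at one momentum -/
theorem sc1 (x C m : ℂ) (hx : x - Complex.I ≠ 0) (hm : m = (x + Complex.I) / (x - Complex.I))
    (hC : 1 + m * C ≠ 0)
    (hG : 1 / (2 * Complex.I) * ((1 - (1 - m) * C) * (m - 1)) ≠ 0)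
    (hs : ‖C / (1 + m * C)‖ ≤ 1) :
    (1 / (1 / (2 * Complex.I) * ((1 - (1 - m) * C) * (m - 1))) - x).im ≤ 0 ∧
      C / (1 + m * C) =
        cayx (1 / (1 / (2 * Complex.I) * ((1 - (1 - m) * C) * (m - 1))) - x) 0 := by
  have hI : (2 * Complex.I) ≠ 0 := by simp
  have hE : 1 - (1 - m) * C ≠ 0 := by
    intro h
    apply hG
    rw [h]
    simp
  have hm1 : m - 1 = 2 * Complex.I / (x - Complex.I) := by
    rw [hm]
    field_simp
    ring
  have hm0 : m - 1 ≠ 0 := by
    rw [hm1]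
    exact div_ne_zero hI hx
  have hxm : m * (x - Complex.I) = x + Complex.I := by
    rw [hm, div_mul_cancel₀ _ hx]
  have e1 : 1 / (1 / (2 * Complex.I) * ((1 - (1 - m) * C) * (m - 1))) =
      (x - Complex.I) / (1 - (1 - m) * C) := by
    rw [hm1] 
    field_simp
  rw [e1]
  set S := (x - Complex.I) / (1 - (1 - m) * C) - x with hS
  have e2 : S + Complex.I = (x - Complex.I) * (C * (1 - m)) / (1 - (1 - m) * C) := by
    rw [hS, eq_div_iff hE, add_mul, sub_mul, div_mul_cancel₀ _ hE]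
    ring
  have e3 : S - Complex.I = (x - Complex.I) * ((1 - m) * (1 + m * C)) / (1 - (1 - m) * C) := by
    rw [hS, eq_div_iff hE, sub_mul, sub_mul, div_mul_cancel₀ _ hE]
    linear_combination (1 - (1 - m) * C) * hxm
  have h1m : 1 - m ≠ 0 := by
    intro h
    apply hm0
    linear_combination -h
  have e4 : S - Complex.I ≠ 0 := by
    rw [e3]
    exact div_ne_zero (mul_ne_zero hx (mul_ne_zero h1m hC)) hE
  have e5 : C / (1 + m * C) = cayx S 0 := by
    unfold cayx
    simp only [Complex.ofReal_zero, add_zero]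
    rw [e2, e3, div_div_div_cancel_right₀ hE, mul_div_mul_left _ _ hx, mul_comm C (1 - m),
      mul_div_mul_left _ _ h1m]
  refine ⟨?_, e5⟩
  rw [e5] at hs
  unfold cayx at hs
  simp only [Complex.ofReal_zero, add_zero] at hs
  rw [norm_div, div_le_one (norm_pos_iff.2 e4)] at hs
  have h6 : ‖S + Complex.I‖ ^ 2 ≤ ‖S - Complex.I‖ ^ 2 := pow_le_pow_left₀ (norm_nonneg _) hs 2
  rw [← Complex.normSq_eq_norm_sq, ← Complex.normSq_eq_norm_sq, Complex.normSq_apply,
    Complex.normSq_apply] at h6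
  simp at h6
  linarith

/-- the estimate of the self-energy at one momentum -/
theorem sc2 (x G A : ℂ) (n : ℕ) (α M b κ : ℝ) (hα : 0 < α) (hn : 1 ≤ n) (hb : 0 < b)
    (hκ : 0 ≤ κ) (hx : x ≠ 0) (hM : ‖(α : ℂ) / x‖ ≤ M) (hbM : κ ^ 2 = b * M)
    (hnκ : 16 * n * κ ≤ 1) (hA : ‖A‖ ≤ α * b)
    (ht : ‖x - x * G * x + A‖ ≤ 12 * n * α * b * κ) :
    G ≠ 0 ∧ ‖1 / G - x + A‖ ≤ 32 * n * α * b * κ := by
  have hn1 : (1 : ℝ) ≤ n := by exact_mod_cast hn
  have hκ16 : κ ≤ 1 / 16 := by nlinarith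
  set t := x - x * G * x with htdef
  have ht2 : ‖t‖ ≤ 2 * (α * b) := by
    have h1 : ‖t‖ ≤ ‖t + A‖ + ‖A‖ := by
      have : t = (t + A) - A := by ring
      calc ‖t‖ = ‖(t + A) - A‖ := by rw [← this]
        _ ≤ _ := norm_sub_le _ _
    have h2 : 12 * n * α * b * κ ≤ α * b := by
      have : 12 * n * α * b * κ = (α * b) * (12 * n * κ) := by ring
      rw [this]
      have h3 : 12 * n * κ ≤ 1 := by nlinarith
      have h4 : 0 ≤ α * b := by positivity
      nlinarith
    linarith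
  have htx : ‖t / x‖ ≤ 2 * κ ^ 2 := by
    have e : t / x = (t / α) * ((α : ℂ) / x) := by
      have : (α : ℂ) ≠ 0 := by exact_mod_cast hα.ne'
      field_simp
    rw [e, norm_mul, norm_div, Complex.norm_real, Real.norm_of_nonneg hα.le]
    have h1 : ‖t‖ / α ≤ 2 * b := by
      rw [div_le_iff₀ hα]
      linarith
    calc ‖t‖ / α * ‖(α : ℂ) / x‖ ≤ (2 * b) * M := by gcongr
      _ = 2 * κ ^ 2 := by rw [hbM]; ring
  have hk2 : 2 * κ ^ 2 ≤ 1 / 128 := by nlinarith
  have htx1 : ‖t / x‖ ≤ 1 / 128 := htx.trans hk2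
  have h1t : 1 - t / x ≠ 0 := by
    intro h
    have : t / x = 1 := by linear_combination -h
    rw [this, norm_one] at htx1
    norm_num at htx1
  have hG : G = (1 - t / x) / x := by
    rw [htdef]
    field_simp
    ring
  have hG0 : G ≠ 0 := by
    rw [hG]
    exact div_ne_zero h1t hx
  refine ⟨hG0, ?_⟩
  have e1 : 1 / G - x = t + t * (t / x) / (1 - t / x) := by
    rw [hG, one_div_div]
    rw [eq_comm, ← sub_eq_zero]
    have : x - t ≠ 0 := by
      intro h
      apply h1t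
      have : t = x := by linear_combination -h
      rw [this, div_self hx, sub_self]
    field_simp
    ring
  have e2 : 1 / G - x + A = (t + A) + t * (t / x) / (1 - t / x) := by
    rw [e1]
    ring
  rw [e2]
  refine (norm_add_le _ _).trans ?_
  have h5 : ‖t * (t / x) / (1 - t / x)‖ ≤ α * b * κ := by
    rw [norm_div, norm_mul]
    have h6 : 127 / 128 ≤ ‖1 - t / x‖ := by
      have := norm_sub_norm_le (1 : ℂ) (t / x)
      rw [norm_one] at this
      linarith
    rw [div_le_iff₀ (by linarith)]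
    have h7 : ‖t‖ * ‖t / x‖ ≤ (2 * (α * b)) * (2 * κ ^ 2) := by gcongr
    have h8 : (2 * (α * b)) * (2 * κ ^ 2) ≤ α * b * κ * (127 / 128) := by
      have h9 : 0 ≤ α * b * κ := by positivity
      have : (2 * (α * b)) * (2 * κ ^ 2) = α * b * κ * (4 * κ) := by ring
      rw [this]
      apply mul_le_mul_of_nonneg_left _ h9
      linarith
    have h9 : α * b * κ * (127 / 128) ≤ α * b * κ * ‖1 - t / x‖ := by
      apply mul_le_mul_of_nonneg_left h6
      positivity
    linarith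
  have h6 : α * b * κ ≤ n * α * b * κ := by
    have : 0 ≤ α * b * κ := by positivity
    nlinarith
  have h7 : 0 ≤ n * α * b * κ := by positivity
  linarith

theorem main : S_SYMB → S_CSYM → S_PSI → S_CX → S_OPR → S_DIA → S_CHI → S_SE := by
  intro hS hC hP hCX hO hD hH d n α c M θ b κ X hα hc hX hn hb hκ hM hθ hb1 h1 h2 h3 h4 h5
  obtain ⟨h0, h⟩ := X_ne hc hX
  have hm : ‖mS X h‖ < 1 := by
    obtain ⟨q, hq0, hq1, hq⟩ := hCX.2.2.1 0 ‖X‖ c hc
    refine lt_of_le_of_lt ((ContinuousMap.norm_le _ hq0).2 fun k => ?_) hq1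
    have := hq (X k) 0 (X.norm_coe_le_norm k) (hX k) (by simp)
    rw [← toC_mS X h] at *
    have e : (toC fun k => cayx (X k) 0) k = cayx (X k) 0 := by
      rw [toC_mS X h]
      simp [mS, cayx]
    rw [e]
    exact this
  have hT := T_est hO hD hC hS hH hα hc X hX h h0 hm hn hb hκ hM hθ hb1 h1 h2 h3 h4 h5
  have hA : ‖(α : ℂ) * ∫ p, (α : ℂ) / X p‖ ≤ α * b := by
    rw [norm_mul, Complex.norm_real, Real.norm_of_nonneg hα.le]
    have : ‖∫ p, (α : ℂ) / X p‖ ≤ ∫ p, ‖(α : ℂ) / X p‖ := norm_integral_le_integral_norm _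
    exact mul_le_mul_of_nonneg_left (this.trans hb1) hα.le
  have hTk : ∀ k, ‖X k - X k * GS α X h k * X k + (α : ℂ) * ∫ p, (α : ℂ) / X p‖ ≤
      12 * n * α * b * κ := by
    intro k
    have := (ContinuousMap.norm_coe_le_norm _ k).trans hT
    simpa using this
  have hk : ∀ k, GS α X h k ≠ 0 ∧ ‖1 / GS α X h k - X k + (α : ℂ) * ∫ p, (α : ℂ) / X p‖ ≤
      32 * n * α * b * κ := fun k =>
    sc2 (X k) (GS α X h k) _ n α M b κ hα hn hb hκ (h0 k) (hM k) h3 h4 hA (hTk k)
  have hps := (hP (tp α) d ‖mS X h‖ (mS X h) (mS X h) (norm_nonneg _) hm le_rfl le_rfl).1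
  have hsc : ∀ k, (1 / GS α X h k - X k).im ≤ 0 ∧
      psi (tp α) (mS X h) k = cayx (1 / GS α X h k - X k) 0 := by
    intro k
    obtain ⟨a1, a2, a3, -⟩ := hps k
    have hG := (hk k).1
    have eG : GS α X h k = 1 / (2 * Complex.I) *
        ((1 - (1 - mS X h k) * csym (tp α) (mS X h) k) * (mS X h k - 1)) := by
      simp [GS]
    rw [a2] at a3
    rw [eG] at hG
    have := sc1 (X k) (csym (tp α) (mS X h) k) (mS X h k) (h k) rfl a1 hG a3
    rw [eG, a2]
    exact this
  refine ⟨⟨fun k => 1 / GS α X h k - X k, ?_⟩, fun k => (hsc k).1, fun k => ?_, fun k => (hk k).2⟩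
  · exact (continuous_const.div (GS α X h).continuous fun k => (hk k).1).sub X.continuous
  · rw [toC_mS X h]
    exact (hsc k).2

end

end Pool.Agent.N916.HB
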