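import Pool.Agent.N659.HB.Stm

/-!
# Project HB, part SE: algebra and measurability
-/

set_option linter.all false

namespace Pool.Agent.N916.HB

open MeasureTheory Filter Pool.Agent.W792.LL Pool.Agent.W792.WA Pool.Agent.N659.HB
open scoped Topology ENNReal

noncomputable section

/-! ### algebra -/

/-- expansion of the resolvent in a ring -/
theorem ring_exp {A : Type*} [Ring A] (x Q r : A) (h1 : r = Q - Q * x * r) (h2 : r = Q - r * x * Q)
    (n : ℕ) :
    x - x * r * x = (∑ j ∈ Finset.range (2 * n + 1), (-1) ^ j * ((x * Q) ^ j * x))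
      - ((x * Q) ^ n * x) * r * ((x * Q) ^ n * x) := by
  induction n with
  | zero => simp
  | succ n ih =>
    rw [ih, show 2 * (n + 1) + 1 = (2 * n + 1) + 1 + 1 by ring, Finset.sum_range_succ _ (2 * n + 1 + 1),
      Finset.sum_range_succ _ (2 * n + 1)]
    have e : r = Q - Q * x * Q + Q * x * r * x * Q := by
      conv_lhs => rw [h1]
      conv_lhs => rw [h2]
      noncomm_ring
    have e1 : (x * Q) ^ n * x * r * ((x * Q) ^ n * x) =
        (x * Q) ^ (2 * n + 1) * x - (x * Q) ^ (2 * n + 1 + 1) * x +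
          ((x * Q) ^ (n + 1) * x) * r * ((x * Q) ^ (n + 1) * x) := by
      conv_lhs => rw [e]
      have a1 : (x * Q) ^ (2 * n + 1) = (x * Q) ^ n * (x * Q) * (x * Q) ^ n := by
        rw [← pow_succ, ← pow_add]
        congr 1
        ring
      have a2 : (x * Q) ^ (2 * n + 1 + 1) = (x * Q) ^ n * (x * Q) * (x * Q) * (x * Q) ^ n := by
        rw [← pow_succ, ← pow_succ, ← pow_add]
        congr 1
        ring
      have a3 : ((x * Q) ^ (n + 1) * x) * r * ((x * Q) ^ (n + 1) * x) =
          (x * Q) ^ n * (x * Q) * x * r * ((x * Q) * (x * Q) ^ n) * x := by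
        rw [← pow_succ, ← pow_succ']
        noncomm_ring
      rw [a1, a2, a3]
      noncomm_ring
    rw [e1]
    have s1 : (-1 : A) ^ (2 * n + 1) = -1 := Odd.neg_one_pow ⟨n, rfl⟩
    have s2 : (-1 : A) ^ (2 * n + 1 + 1) = 1 := Even.neg_one_pow ⟨n + 1, by ring⟩
    rw [s1, s2]
    noncomm_ring

/-- the resolvent in terms of the Cayley transforms -/
theorem inv_alg {A : Type*} [Ring A] (x m V c ρ i : A) (hi : ∀ a, i * a = a * i)
    (k : A) (hk : k * (2 * i) = 1)
    (h1 : (x - i) * m = x + i) (h2 : c * (V - i) = V + i) (h2' : (V - i) * c = V + i)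
    (h3 : (m - 1) * (x - i) = 2 * i) (h3' : (x - i) * (m - 1) = 2 * i) (hii : i * i = -1)
    (h5 : (1 - m * c) * ρ = 1) (h5' : ρ * (1 - m * c) = 1) :
    (x + V) * ((1 - c) * ρ * (m - 1)) = 2 * i ∧ ((1 - c) * ρ * (m - 1)) * (x + V) = 2 * i := by
  have hc : (x - i) * (1 - m * c) * (V - i) = -(2 * i) * (x + V) := by
    have : (x - i) * (1 - m * c) * (V - i) = (x - i) * (V - i) - ((x - i) * m) * (c * (V - i)) := by
      noncomm_ring
    rw [this, h1, h2]
    have e1 : (x - i) * (V - i) - (x + i) * (V + i) = -(x * i + i * x) - 2 * i * V := by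
      rw [← hi x]
      have : (x - i) * (V - i) = x * V - x * i - i * V + i * i := by noncomm_ring
      rw [this]
      have : (x + i) * (V + i) = x * V + x * i + i * V + i * i := by noncomm_ring
      rw [this, ← hi x]
      noncomm_ring
    rw [e1, ← hi x]
    noncomm_ring
  have h4 : (1 - c) * (V - i) = -(2 * i) := by
    have : (1 - c) * (V - i) = (V - i) - c * (V - i) := by noncomm_ring
    rw [this, h2]
    noncomm_ring
  have h4' : (V - i) * (1 - c) = -(2 * i) := by
    have : (V - i) * (1 - c) = (V - i) - (V - i) * c := by noncomm_ring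
    rw [this, h2']
    noncomm_ring
  have hi2 : ∀ a, (2 * i) * a = a * (2 * i) := by
    intro a
    rw [mul_assoc, hi a]
    noncomm_ring
  have hcan : ∀ a b, (2 * i) * a = (2 * i) * b → a = b := by
    intro a b h
    calc a = k * (2 * i) * a := by rw [hk, one_mul]
      _ = k * ((2 * i) * a) := by rw [mul_assoc]
      _ = k * ((2 * i) * b) := by rw [h]
      _ = k * (2 * i) * b := by rw [← mul_assoc k]
      _ = b := by rw [hk, one_mul]
  constructor
  · have e : (2 * i) * ((x + V) * ((1 - c) * ρ * (m - 1))) = (2 * i) * (2 * i) := by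
      calc (2 * i) * ((x + V) * ((1 - c) * ρ * (m - 1)))
          = -((-(2 * i) * (x + V)) * (1 - c) * ρ * (m - 1)) := by noncomm_ring
        _ = -((x - i) * (1 - m * c) * ((V - i) * (1 - c)) * ρ * (m - 1)) := by
            rw [← hc]; noncomm_ring
        _ = (x - i) * (1 - m * c) * (2 * i) * ρ * (m - 1) := by rw [h4']; noncomm_ring
        _ = (x - i) * ((1 - m * c) * ρ) * (2 * i) * (m - 1) := by
            rw [mul_assoc ((x - i) * (1 - m * c)) (2 * i) ρ, hi2 ρ]; noncomm_ring
        _ = (x - i) * (2 * i) * (m - 1) := by rw [h5, mul_one]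
        _ = (2 * i) * ((x - i) * (m - 1)) := by rw [← hi2 (x - i)]; noncomm_ring
        _ = (2 * i) * (2 * i) := by rw [h3']
    exact hcan _ _ e
  · have e : (2 * i) * (((1 - c) * ρ * (m - 1)) * (x + V)) = (2 * i) * (2 * i) := by
      calc (2 * i) * (((1 - c) * ρ * (m - 1)) * (x + V))
          = (1 - c) * ρ * (m - 1) * ((2 * i) * (x + V)) := by
            rw [← mul_assoc, hi2 ((1 - c) * ρ * (m - 1))]; noncomm_ring
        _ = -((1 - c) * ρ * (m - 1) * ((x - i) * (1 - m * c) * (V - i))) := by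
            rw [hc]; noncomm_ring
        _ = -((1 - c) * ρ * ((m - 1) * (x - i)) * (1 - m * c) * (V - i)) := by noncomm_ring
        _ = -((1 - c) * ρ * (2 * i) * (1 - m * c) * (V - i)) := by rw [h3]
        _ = -((2 * i) * ((1 - c) * (ρ * (1 - m * c)) * (V - i))) := by
            rw [← hi2 ((1 - c) * ρ)]; noncomm_ring
        _ = -((2 * i) * ((1 - c) * (V - i))) := by rw [h5', mul_one]
        _ = (2 * i) * (2 * i) := by rw [h4]; noncomm_ring
    exact hcan _ _ e

/-! ### measurability -/

theorem sm_of {Ω : Type*} [MeasurableSpace Ω] {d : ℕ} (f : Ω → l2 (Fin d → ℤ))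
    (h : ∀ x, Measurable fun ω => f ω x) : StronglyMeasurable f := by
  have hs : ∀ ω, HasSum (fun x => lp.single 2 x (f ω x)) (f ω) := fun ω =>
    lp.hasSum_single (by norm_num) (f ω)
  refine stronglyMeasurable_of_tendsto (atTop : Filter (Finset (Fin d → ℤ)))
    (f := fun s ω => ∑ x ∈ s, lp.single 2 x (f ω x)) ?_ (tendsto_pi_nhds.2 hs)
  intro s
  refine Finset.stronglyMeasurable_fun_sum s fun x _ => ?_
  have e : (fun ω => lp.single (E := fun _ : Fin d → ℤ => ℂ) 2 x (f ω x)) =
      fun ω => f ω x • lp.single (E := fun _ : Fin d → ℤ => ℂ) 2 x (1 : ℂ) := by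
    funext ω
    rw [← lp.single_smul, smul_eq_mul, mul_one]
  rw [e]
  exact (h x).stronglyMeasurable.smul_const _

theorem ae_tp (α : ℝ) : ∀ᵐ y ∂(tp α), y = α ∨ y = -α := by
  have hm : MeasurableSet {y : ℝ | y = α ∨ y = -α} :=
    (measurableSet_singleton α).union (measurableSet_singleton (-α))
  rw [tp, ae_add_measure_iff]
  constructor
  · refine Measure.ae_smul_measure ?_ _
    exact (ae_dirac_iff hm).2 (Or.inl rfl)
  · refine Measure.ae_smul_measure ?_ _
    exact (ae_dirac_iff hm).2 (Or.inr rfl)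

theorem ae_Pn (α : ℝ) (d : ℕ) : ∀ᵐ v ∂(Pn (tp α) (Fin d → ℤ)), ∀ x, v x = α ∨ v x = -α := by
  rw [ae_all_iff]
  intro x
  have h := (measurePreserving_eval_infinitePi (fun _ : Fin d → ℤ => tp α) x)
  exact h.quasiMeasurePreserving.ae (ae_tp α)

end

end Pool.Agent.N916.HB
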