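import Pool.Agent.N916.HB.SE1

/-!
# Project HB, part SE: operators
-/

set_option linter.all false

namespace Pool.Agent.N916.HB

open MeasureTheory Filter Pool.Agent.W792.LL Pool.Agent.W792.WA Pool.Agent.N659.HB
open scoped Topology ENNReal

noncomputable section

/-- `opr` as a homomorphism of algebras. -/
def OA (h : S_OPR) (d : ℕ) :
    C(UnitAddTorus (Fin d), ℂ) →ₐ[ℂ] (l2 (Fin d → ℤ) →L[ℂ] l2 (Fin d → ℤ)) :=
  AlgHom.ofLinearMap
    { toFun := opr
      map_add' := fun a b => (h d a b).2.2.2.1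
      map_smul' := fun c a => (h d a a).2.2.2.2.1 c }
    (h d 1 1).2.2.2.2.2.1 (fun a b => (h d a b).2.2.1)

theorem OA_apply (h : S_OPR) (d : ℕ) (a : C(UnitAddTorus (Fin d), ℂ)) : OA h d a = opr a := rfl

theorem sgn1_norm (y : ℝ) : ‖sgn1 y‖ = 1 := by
  unfold sgn1
  split_ifs <;> simp

theorem sgn1_sq (y : ℝ) : sgn1 y * sgn1 y = 1 := by
  unfold sgn1
  split_ifs <;> simp

theorem sgn1_conj (y : ℝ) : (starRingEnd ℂ) (sgn1 y) = sgn1 y := by
  unfold sgn1
  split_ifs <;> simp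

theorem sgn1_mul {α y : ℝ} (hα : 0 < α) (h : y = α ∨ y = -α) : (α : ℂ) * sgn1 y = y := by
  unfold sgn1
  rcases h with rfl | rfl
  · rw [if_pos hα, mul_one]
  · rw [if_neg (by linarith)]
    push_cast
    ring

theorem ne_I (y : ℝ) : (y : ℂ) - Complex.I ≠ 0 := by
  intro h
  have := congrArg Complex.im h
  simp at this

theorem cay_norm (y : ℝ) : ‖cay y‖ = 1 := by
  unfold cay
  rw [norm_div, div_eq_one_iff_eq (norm_ne_zero_iff.2 (ne_I y))]
  have : (y : ℂ) + Complex.I = (starRingEnd ℂ) ((y : ℂ) - Complex.I) := by simp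
  rw [this, RCLike.norm_conj]

theorem cay_mul (y : ℝ) : cay y * ((y : ℂ) - Complex.I) = y + Complex.I := by
  unfold cay
  rw [div_mul_cancel₀ _ (ne_I y)]

variable {d : ℕ}

theorem xi_apply (hD : S_DIA) (v : (Fin d → ℤ) → ℝ) (u : l2 (Fin d → ℤ)) (x : Fin d → ℤ) :
    xi v u x = sgn1 (v x) * u x :=
  (hD (Fin d → ℤ) (fun x => sgn1 (v x)) (fun x => (sgn1_norm _).le)).1 u x

theorem dc_apply (hD : S_DIA) (v : (Fin d → ℤ) → ℝ) (u : l2 (Fin d → ℤ)) (x : Fin d → ℤ) :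
    dc v u x = cay (v x) * u x :=
  (hD (Fin d → ℤ) (fun x => cay (v x)) (fun x => (cay_norm _).le)).1 u x

theorem xi_norm (hD : S_DIA) (v : (Fin d → ℤ) → ℝ) : ‖xi v‖ ≤ 1 :=
  (hD (Fin d → ℤ) (fun x => sgn1 (v x)) (fun x => (sgn1_norm _).le)).2

theorem dc_norm (hD : S_DIA) (v : (Fin d → ℤ) → ℝ) : ‖dc v‖ ≤ 1 :=
  (hD (Fin d → ℤ) (fun x => cay (v x)) (fun x => (cay_norm _).le)).2

theorem dcV (hD : S_DIA) {α : ℝ} (hα : 0 < α) {v : (Fin d → ℤ) → ℝ}
    (hv : ∀ x, v x = α ∨ v x = -α) :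
    dc v * ((α : ℂ) • xi v - Complex.I • 1) = (α : ℂ) • xi v + Complex.I • 1 ∧
    ((α : ℂ) • xi v - Complex.I • 1) * dc v = (α : ℂ) • xi v + Complex.I • 1 := by
  constructor
  · ext u x
    have h := cay_mul (v x)
    simp only [ContinuousLinearMap.mul_apply, ContinuousLinearMap.sub_apply,
      ContinuousLinearMap.add_apply, ContinuousLinearMap.smul_apply,
      ContinuousLinearMap.one_apply, lp.coeFn_add, lp.coeFn_sub, lp.coeFn_smul, Pi.add_apply,
      Pi.sub_apply, Pi.smul_apply, smul_eq_mul, dc_apply hD, xi_apply hD]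
    rw [← mul_assoc (α : ℂ), sgn1_mul hα (hv x)]
    linear_combination (u x) * h
  · ext u x
    have h := cay_mul (v x)
    simp only [ContinuousLinearMap.mul_apply, ContinuousLinearMap.sub_apply,
      ContinuousLinearMap.add_apply, ContinuousLinearMap.smul_apply,
      ContinuousLinearMap.one_apply, lp.coeFn_add, lp.coeFn_sub, lp.coeFn_smul, Pi.add_apply,
      Pi.sub_apply, Pi.smul_apply, smul_eq_mul, dc_apply hD, xi_apply hD]
    rw [← mul_assoc (α : ℂ), ← mul_assoc (α : ℂ), sgn1_mul hα (hv x)]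
    linear_combination (u x) * h

theorem xi_inner (hD : S_DIA) (v : (Fin d → ℤ) → ℝ) (u w : l2 (Fin d → ℤ)) :
    inner ℂ (xi v u) w = inner ℂ u (xi v w) := by
  rw [lp.inner_eq_tsum, lp.inner_eq_tsum]
  refine tsum_congr fun x => ?_
  rw [xi_apply hD, xi_apply hD]
  simp only [RCLike.inner_apply, map_mul, sgn1_conj]
  ring

/-! ### symbols -/

/-- `m = (X + i) / (X - i)` -/
def mS (X : C(UnitAddTorus (Fin d), ℂ)) (h : ∀ k, X k - Complex.I ≠ 0) :
    C(UnitAddTorus (Fin d), ℂ) :=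
  ⟨fun k => (X k + Complex.I) / (X k - Complex.I), by
    exact (X.continuous.add continuous_const).div (X.continuous.sub continuous_const) h⟩

/-- `q = α / X` -/
def qS (α : ℝ) (X : C(UnitAddTorus (Fin d), ℂ)) (h : ∀ k, X k ≠ 0) :
    C(UnitAddTorus (Fin d), ℂ) :=
  ⟨fun k => (α : ℂ) / X k, continuous_const.div X.continuous h⟩

theorem toC_mS (X : C(UnitAddTorus (Fin d), ℂ)) (h : ∀ k, X k - Complex.I ≠ 0) :
    (toC fun k => cayx (X k) 0) = mS X h := by
  have e : (fun k => cayx (X k) 0) = fun k => (X k + Complex.I) / (X k - Complex.I) := by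
    funext k
    simp [cayx]
  have hc : Continuous fun k => cayx (X k) 0 := by
    rw [e]
    exact (mS X h).continuous
  unfold toC
  rw [dif_pos hc]
  ext k
  exact congrFun e k

theorem X_ne {c : ℝ} (hc : 0 < c) {X : C(UnitAddTorus (Fin d), ℂ)} (hX : ∀ k, (X k).im ≤ -c) :
    (∀ k, X k ≠ 0) ∧ ∀ k, X k - Complex.I ≠ 0 := by
  constructor
  · intro k h
    have := hX k
    rw [h] at this
    simp at this
    linarith
  · intro k h
    have h1 := hX k
    have h2 := congrArg Complex.im h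
    simp at h2
    linarith

theorem m_rel (X : C(UnitAddTorus (Fin d), ℂ)) (h : ∀ k, X k - Complex.I ≠ 0) :
    (X - Complex.I • 1) * mS X h = X + Complex.I • 1 ∧
    (X - Complex.I • 1) * (mS X h - 1) = Complex.I • 1 + Complex.I • 1 := by
  constructor
  · ext k
    have := h k
    simp [mS]
    field_simp
  · ext k
    have := h k
    simp [mS]
    field_simp
    ring

theorem q_rel (α : ℝ) (X : C(UnitAddTorus (Fin d), ℂ)) (h : ∀ k, X k ≠ 0) :
    X * qS α X h = (α : ℂ) • 1 := by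
  ext k
  have := h k
  simp [qS]
  field_simp

/-! ### the resolvent -/

/-- the resolvent of `X + V` -/
def RR (X : C(UnitAddTorus (Fin d), ℂ)) (h : ∀ k, X k - Complex.I ≠ 0) (v : (Fin d → ℤ) → ℝ) :
    l2 (Fin d → ℤ) →L[ℂ] l2 (Fin d → ℤ) :=
  (1 / (2 * Complex.I)) • ((1 - dc v) * rsv (mS X h) v * (opr (mS X h) - 1))

theorem RR_inv (hO : S_OPR) (hD : S_DIA) (hC : S_CSYM) {α : ℝ} (hα : 0 < α)
    (X : C(UnitAddTorus (Fin d), ℂ)) (h : ∀ k, X k - Complex.I ≠ 0) (hm : ‖mS X h‖ < 1)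
    {v : (Fin d → ℤ) → ℝ} (hv : ∀ x, v x = α ∨ v x = -α) :
    (opr X + (α : ℂ) • xi v) * RR X h v = 1 ∧ RR X h v * (opr X + (α : ℂ) • xi v) = 1 := by
  have hc := ((hC (tp α) d (mS X h) hm).1 v).2
  have hI : (2 * Complex.I) ≠ 0 := by simp
  have e1 := congrArg (OA hO d) (m_rel X h).1
  have e2 := congrArg (OA hO d) (m_rel X h).2
  have e3 : (OA hO d) ((mS X h - 1) * (X - Complex.I • 1)) =
      (OA hO d) (Complex.I • 1 + Complex.I • 1) := by
    rw [mul_comm, (m_rel X h).2]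
  simp only [map_mul, map_sub, map_add, map_smul, map_one, OA_apply] at e1 e2 e3
  rw [← two_mul] at e2 e3
  have h2 : (1 / (2 * Complex.I)) • ((2 : l2 (Fin d → ℤ) →L[ℂ] l2 (Fin d → ℤ)) *
      (Complex.I • 1)) = 1 := by
    rw [two_mul (Complex.I • (1 : l2 (Fin d → ℤ) →L[ℂ] l2 (Fin d → ℤ))), ← add_smul, smul_smul,
      ← two_mul, one_div_mul_cancel hI, one_smul]
  have hinv := inv_alg (A := l2 (Fin d → ℤ) →L[ℂ] l2 (Fin d → ℤ)) (opr X) (opr (mS X h))
    ((α : ℂ) • xi v) (dc v) (rsv (mS X h) v) (Complex.I • 1) (fun a => by simp)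
    ((1 / (2 * Complex.I)) • 1) (by
      rw [smul_mul_assoc, one_mul, h2]) e1 (dcV hD hα hv).1 (dcV hD hα hv).2 e3 e2
    (by
      rw [smul_mul_smul_comm, one_mul, Complex.I_mul_I, neg_smul, one_smul]) hc.1 hc.2
  unfold RR
  constructor
  · rw [mul_smul_comm, hinv.1, h2]
  · rw [smul_mul_assoc, hinv.2, h2]

theorem RR_norm (hO : S_OPR) (hD : S_DIA) (hC : S_CSYM) (hS : S_SYMB) {α c : ℝ} (hα : 0 < α)
    (hc : 0 < c) (X : C(UnitAddTorus (Fin d), ℂ)) (hX : ∀ k, (X k).im ≤ -c)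
    (h : ∀ k, X k - Complex.I ≠ 0) (hm : ‖mS X h‖ < 1)
    {v : (Fin d → ℤ) → ℝ} (hv : ∀ x, v x = α ∨ v x = -α) (w : l2 (Fin d → ℤ)) :
    ‖RR X h v w‖ ≤ ‖w‖ / c := by
  have hinv := (RR_inv hO hD hC hα X h hm hv).1
  set u := RR X h v w with hu
  have hw : (opr X + (α : ℂ) • xi v) u = w := by
    have := congrArg (fun T : l2 (Fin d → ℤ) →L[ℂ] l2 (Fin d → ℤ) => T w) hinv
    simpa using this
  have hpos := ((hS d).2.2.1 (Complex.I • X - (c : ℂ) • 1)).2 (by
    intro k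
    simp
    linarith [hX k]) u
  have e1 : opr (Complex.I • X - (c : ℂ) • 1) = Complex.I • opr X - (c : ℂ) • 1 := by
    have := map_sub (OA hO d) (Complex.I • X) ((c : ℂ) • 1)
    rw [map_smul, map_smul, map_one] at this
    exact this
  rw [e1] at hpos
  have hreal : (inner ℂ u (xi v u)).im = 0 := by
    have h1 := xi_inner hD v u u
    have h2 : (starRingEnd ℂ) (inner ℂ u (xi v u)) = inner ℂ u (xi v u) := by
      rw [inner_conj_symm]
      exact h1
    exact Complex.conj_eq_iff_im.1 h2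
  have e2 : (inner ℂ u ((Complex.I • opr X - (c : ℂ) • 1) u)).re =
      (inner ℂ u (Complex.I • w)).re - c * ‖u‖ ^ 2 := by
    rw [← hw]
    simp only [ContinuousLinearMap.sub_apply, ContinuousLinearMap.add_apply,
      ContinuousLinearMap.smul_apply, ContinuousLinearMap.one_apply, inner_sub_right,
      inner_add_right, inner_smul_right, smul_add, Complex.sub_re, Complex.add_re,
      inner_self_eq_norm_sq_to_K]
    have : (Complex.I * ((α : ℂ) * inner ℂ u (xi v u))).re = 0 := by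
      simp [hreal]
    rw [this, add_zero]
    congr 1
    show ((c : ℂ) * ((‖u‖ : ℝ) : ℂ) ^ 2).re = _
    rw [← Complex.ofReal_pow, ← Complex.ofReal_mul, Complex.ofReal_re]
  rw [e2] at hpos
  have h3 : (inner ℂ u (Complex.I • w)).re ≤ ‖u‖ * ‖w‖ := by
    refine (Complex.re_le_norm _).trans ((norm_inner_le_norm _ _).trans ?_)
    rw [norm_smul, Complex.norm_I, one_mul]
  rw [le_div_iff₀ hc]
  by_cases h0 : ‖u‖ = 0
  · rw [h0]
    simp
  · have : 0 < ‖u‖ := lt_of_le_of_ne (norm_nonneg _) (Ne.symm h0)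
    have h4 : ‖u‖ * (‖u‖ * c) ≤ ‖u‖ * ‖w‖ := by nlinarith
    exact le_of_mul_le_mul_left h4 this

end

end Pool.Agent.N916.HB
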