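import Pool.Agent.N916.HB.SE2

/-!
# Project HB, part SE: averages
-/

set_option linter.all false

namespace Pool.Agent.N916.HB

open MeasureTheory Filter Pool.Agent.W792.LL Pool.Agent.W792.WA Pool.Agent.N659.HB
open scoped Topology ENNReal

noncomputable section

variable {d : ℕ}

/-- the averaged resolvent -/
def GS (α : ℝ) (X : C(UnitAddTorus (Fin d), ℂ)) (h : ∀ k, X k - Complex.I ≠ 0) :
    C(UnitAddTorus (Fin d), ℂ) :=
  (1 / (2 * Complex.I)) •
    ((1 - (1 - mS X h) * csym (tp α) (mS X h)) * (mS X h - 1))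

theorem int_apply {Ω : Type*} [MeasurableSpace Ω] {μ : Measure Ω} (f : Ω → l2 (Fin d → ℤ))
    (hf : Integrable f μ) (x : Fin d → ℤ) : (∫ ω, f ω ∂μ) x = ∫ ω, f ω x ∂μ := by
  have := integral_inner (𝕜 := ℂ) hf (lp.single 2 x (1 : ℂ))
  simp only [lp.inner_single_left] at this
  simpa using this.symm

theorem RR_exp (hO : S_OPR) (hD : S_DIA) (hC : S_CSYM) (hS : S_SYMB) {α c : ℝ} (hα : 0 < α)
    (hc : 0 < c) (X : C(UnitAddTorus (Fin d), ℂ)) (hX : ∀ k, (X k).im ≤ -c)
    (h : ∀ k, X k - Complex.I ≠ 0) (hm : ‖mS X h‖ < 1) (u : l2 (Fin d → ℤ)) :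
    Integrable (fun v => RR X h v u) (Pn (tp α) (Fin d → ℤ)) ∧
    ∫ v, RR X h v u ∂(Pn (tp α) (Fin d → ℤ)) = opr (GS α X h) u := by
  obtain ⟨hC1, hC2, hC3⟩ := hC (tp α) d (mS X h) hm
  set m := mS X h with hmdef
  set u' := (opr m - 1) u with hu'
  have sm1 : StronglyMeasurable fun v => rsv m v u' := sm_of _ fun x => (hC2 u' x).1
  have sm2 : StronglyMeasurable fun v => dc v (rsv m v u') := sm_of _ fun x => (hC2 u' x).2.1
  have b1 : ∀ v, ‖rsv m v u'‖ ≤ 1 / (1 - ‖m‖) * ‖u'‖ := fun v =>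
    (ContinuousLinearMap.le_opNorm _ _).trans
      (mul_le_mul_of_nonneg_right (hC1 v).1 (norm_nonneg _))
  have b2 : ∀ v, ‖dc v (rsv m v u')‖ ≤ 1 / (1 - ‖m‖) * ‖u'‖ := fun v => by
    refine (ContinuousLinearMap.le_opNorm _ _).trans ?_
    have := dc_norm hD v
    have h2 := b1 v
    have h3 : 0 ≤ ‖rsv m v u'‖ := norm_nonneg _
    nlinarith
  have i1 : Integrable (fun v => rsv m v u') (Pn (tp α) (Fin d → ℤ)) :=
    Integrable.of_bound sm1.aestronglyMeasurable _ (Eventually.of_forall b1)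
  have i2 : Integrable (fun v => dc v (rsv m v u')) (Pn (tp α) (Fin d → ℤ)) :=
    Integrable.of_bound sm2.aestronglyMeasurable _ (Eventually.of_forall b2)
  have e0 : (fun v => RR X h v u) =
      fun v => (1 / (2 * Complex.I)) • (rsv m v u' - dc v (rsv m v u')) := by
    funext v
    simp only [RR, ContinuousLinearMap.smul_apply, ContinuousLinearMap.mul_apply,
      ContinuousLinearMap.sub_apply, ContinuousLinearMap.one_apply]
    rfl
  rw [e0]
  refine ⟨?_, ?_⟩
  · have i3 := (i1.sub i2).smul (1 / (2 * Complex.I))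
    exact i3
  rw [integral_smul, integral_sub i1 i2]
  have e1 : ∫ v, rsv m v u' ∂(Pn (tp α) (Fin d → ℤ)) = u' + opr (m * csym (tp α) m) u' := by
    ext x
    rw [int_apply _ i1, (hC2 u' x).2.2.2]
    simp
  have e2 : ∫ v, dc v (rsv m v u') ∂(Pn (tp α) (Fin d → ℤ)) = opr (csym (tp α) m) u' := by
    ext x
    rw [int_apply _ i2, (hC2 u' x).2.2.1]
  rw [e1, e2]
  have e3 : opr (GS α X h) = (1 / (2 * Complex.I)) •
      ((1 - (1 - opr m) * opr (csym (tp α) m)) * (opr m - 1)) := by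
    rw [← OA_apply hO, GS, map_smul, map_mul, map_sub, map_sub, map_mul, map_sub, map_one]
    rfl
  have e4 : opr (m * csym (tp α) m) = opr m * opr (csym (tp α) m) := (hO d _ _).2.2.1
  rw [e3, e4]
  simp only [ContinuousLinearMap.smul_apply, ContinuousLinearMap.mul_apply,
    ContinuousLinearMap.sub_apply, ContinuousLinearMap.one_apply]
  congr 1
  have hu2 : (opr m) u - u = u' := by
    rw [hu']
    simp
  rw [hu2]
  abel

theorem main_id (hO : S_OPR) (hD : S_DIA) (hC : S_CSYM) {α : ℝ} (hα : 0 < α)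
    (X : C(UnitAddTorus (Fin d), ℂ)) (h : ∀ k, X k - Complex.I ≠ 0) (h0 : ∀ k, X k ≠ 0)
    (hm : ‖mS X h‖ < 1)
    {v : (Fin d → ℤ) → ℝ} (hv : ∀ x, v x = α ∨ v x = -α) (n : ℕ) :
    opr X - opr X * RR X h v * opr X =
      (α : ℂ) • ((∑ j ∈ Finset.range (2 * n + 1), (-1) ^ j * ch (qS α X h0) v j) -
        ch (qS α X h0) v n * ((α : ℂ) • RR X h v) * ch (qS α X h0) v n) := by
  obtain ⟨hr1, hr2⟩ := RR_inv hO hD hC hα X h hm hv
  set R := RR X h v
  set Q := opr (qS α X h0) with hQ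
  have hXQ : opr X * Q = (α : ℂ) • 1 := by
    have := congrArg (OA hO d) (q_rel α X h0)
    rw [map_mul, map_smul, map_one] at this
    exact this
  have hQX : Q * opr X = (α : ℂ) • 1 := by
    have := congrArg (OA hO d) (q_rel α X h0)
    rw [mul_comm, map_mul, map_smul, map_one] at this
    exact this
  have h1 : (α : ℂ) • R = Q - Q * xi v * ((α : ℂ) • R) := by
    have : Q * ((opr X + (α : ℂ) • xi v) * R) = Q := by rw [hr1, mul_one]
    have e : Q * ((opr X + (α : ℂ) • xi v) * R) = (α : ℂ) • R + Q * xi v * ((α : ℂ) • R) := by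
      rw [add_mul, mul_add, ← mul_assoc, hQX, smul_mul_assoc, one_mul, smul_mul_assoc,
        mul_smul_comm, mul_smul_comm, mul_assoc]
    rw [e] at this
    rw [eq_sub_iff_add_eq]
    exact this
  have h2 : (α : ℂ) • R = Q - ((α : ℂ) • R) * xi v * Q := by
    have : (R * (opr X + (α : ℂ) • xi v)) * Q = Q := by rw [hr2, one_mul]
    have e : (R * (opr X + (α : ℂ) • xi v)) * Q = (α : ℂ) • R + ((α : ℂ) • R) * xi v * Q := by
      rw [mul_add, add_mul, mul_assoc R, hXQ, mul_smul_comm, mul_one, mul_smul_comm,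
        smul_mul_assoc, smul_mul_assoc, smul_mul_assoc]
    rw [e] at this
    rw [eq_sub_iff_add_eq]
    exact this
  have h3 := ring_exp (xi v) Q ((α : ℂ) • R) h1 h2 n
  have h4 : opr X - opr X * R * opr X = (α : ℂ) • (xi v - xi v * ((α : ℂ) • R) * xi v) := by
    have a1 : opr X * R = 1 - (α : ℂ) • xi v * R := by
      rw [eq_sub_iff_add_eq, ← add_mul]
      exact hr1
    have a2 : R * opr X = 1 - R * ((α : ℂ) • xi v) := by
      rw [eq_sub_iff_add_eq, ← mul_add]
      exact hr2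
    have a3 : opr X * R * opr X = opr X - (α : ℂ) • xi v + (α : ℂ) • xi v * R * ((α : ℂ) • xi v) := by
      rw [mul_assoc, a2, mul_sub, mul_one, ← mul_assoc, a1, sub_mul, one_mul]
      abel
    rw [a3, smul_sub, mul_smul_comm, smul_mul_assoc, smul_mul_assoc, mul_smul_comm,
      smul_mul_assoc]
    abel
  rw [h4, h3]
  rfl

theorem ch_adj (hD : S_DIA) (hO : S_OPR) (hS : S_SYMB) (q : C(UnitAddTorus (Fin d), ℂ))
    (v : (Fin d → ℤ) → ℝ) (n : ℕ) (w z : l2 (Fin d → ℤ)) :
    inner ℂ w (ch q v n z) = inner ℂ (ch (star q) v n w) z := by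
  have ho : ∀ u z : l2 (Fin d → ℤ), inner ℂ u (opr q z) = inner ℂ (opr (star q) u) z := by
    intro u z
    have h1 := (hS d).1 (star q) 1 u z
    rw [star_star, mul_one] at h1
    have h2 : opr (1 : C(UnitAddTorus (Fin d), ℂ)) = 1 := (hO d 1 1).2.2.2.2.2.1
    rw [h2] at h1
    exact h1.symm
  have hp : ∀ (n : ℕ) (w z : l2 (Fin d → ℤ)), inner ℂ w (((xi v * opr q) ^ n) z) =
      inner ℂ (((opr (star q) * xi v) ^ n) w) z := by
    intro n
    induction n with
    | zero => intro w z; simp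
    | succ n ih =>
      intro w z
      rw [pow_succ', pow_succ, ContinuousLinearMap.mul_apply, ContinuousLinearMap.mul_apply,
        ContinuousLinearMap.mul_apply, ContinuousLinearMap.mul_apply, ← xi_inner hD, ho, ih]
  have hx : xi v * (opr (star q) * xi v) ^ n = (xi v * opr (star q)) ^ n * xi v :=
    (mul_pow_mul _ _ _).symm
  unfold ch
  rw [← hx, ContinuousLinearMap.mul_apply, ContinuousLinearMap.mul_apply, hp, xi_inner hD]

theorem ch_bound (hD : S_DIA) (hO : S_OPR) (q : C(UnitAddTorus (Fin d), ℂ))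
    (v : (Fin d → ℤ) → ℝ) (n : ℕ) (z : l2 (Fin d → ℤ)) : ‖ch q v n z‖ ≤ ‖q‖ ^ n * ‖z‖ := by
  have hx : ∀ z, ‖xi v z‖ ≤ ‖z‖ := fun z => by
    refine (ContinuousLinearMap.le_opNorm _ _).trans ?_
    have := xi_norm hD v
    have h2 : 0 ≤ ‖z‖ := norm_nonneg _
    nlinarith
  have hq : ∀ z, ‖opr q z‖ ≤ ‖q‖ * ‖z‖ := fun z =>
    (ContinuousLinearMap.le_opNorm _ _).trans
      (mul_le_mul_of_nonneg_right (hO d q q).2.1 (norm_nonneg _))
  have hp : ∀ (n : ℕ) (z : l2 (Fin d → ℤ)), ‖((xi v * opr q) ^ n) z‖ ≤ ‖q‖ ^ n * ‖z‖ := by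
    intro n
    induction n with
    | zero => intro z; simp
    | succ n ih =>
      intro z
      rw [pow_succ', ContinuousLinearMap.mul_apply, ContinuousLinearMap.mul_apply]
      refine (hx _).trans ((hq _).trans ?_)
      rw [pow_succ', mul_assoc]
      exact mul_le_mul_of_nonneg_left (ih z) (norm_nonneg _)
  unfold ch
  rw [ContinuousLinearMap.mul_apply]
  refine (hp n _).trans ?_
  exact mul_le_mul_of_nonneg_left (hx z) (by positivity)

end

end Pool.Agent.N916.HB
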