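import Pool.Agent.N916.HB.SE3

/-!
# Project HB, part SE: the estimate of the self-energy
-/

set_option linter.all false

namespace Pool.Agent.N916.HB

open MeasureTheory Filter Pool.Agent.W792.LL Pool.Agent.W792.WA Pool.Agent.N659.HB
open scoped Topology ENNReal

noncomputable section

variable {d : ℕ}

theorem geo (y : ℝ) (hy : 0 ≤ y) (hy4 : y ≤ 1 / 4) (m : ℕ) :
    ∑ j ∈ Finset.Ico 2 (m + 2), y ^ (j - 1) ≤ 4 / 3 * y * (1 - y ^ m) := by
  induction m with
  | zero => simp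
  | succ m ih =>
    rw [show m + 1 + 2 = (m + 2) + 1 by ring, Finset.sum_Ico_succ_top (by omega)]
    have e : m + 2 - 1 = m + 1 := by omega
    rw [e, pow_succ]
    have : 0 ≤ y ^ m * y := by positivity
    nlinarith

theorem opr_bound (hS : S_SYMB) (T : C(UnitAddTorus (Fin d), ℂ)) (B : ℝ) (hB : 0 ≤ B)
    (h : ∀ w u : l2 (Fin d → ℤ), w ≠ 0 → u ≠ 0 → ‖inner ℂ w (opr T u)‖ ≤ B * (‖w‖ * ‖u‖)) :
    ‖T‖ ≤ B := by
  rw [← (hS d).2.1 T]
  refine ContinuousLinearMap.opNorm_le_bound _ hB fun u => ?_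
  by_cases hu : u = 0
  · subst hu
    simp
  by_cases hw : opr T u = 0
  · rw [hw, norm_zero]
    positivity
  have h1 := h (opr T u) u hw hu
  rw [inner_self_eq_norm_sq_to_K] at h1
  have h2 : ‖opr T u‖ * ‖opr T u‖ ≤ ‖opr T u‖ * (B * ‖u‖) := by
    have : ‖((‖opr T u‖ : ℂ)) ^ 2‖ = ‖opr T u‖ * ‖opr T u‖ := by
      rw [norm_pow, Complex.norm_real, norm_norm, sq]
    calc ‖opr T u‖ * ‖opr T u‖ = ‖((‖opr T u‖ : ℂ)) ^ 2‖ := this.symm
      _ ≤ B * (‖opr T u‖ * ‖u‖) := h1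
      _ = ‖opr T u‖ * (B * ‖u‖) := by ring
  exact le_of_mul_le_mul_left h2 (norm_pos_iff.2 hw)

theorem T_est (hO : S_OPR) (hD : S_DIA) (hC : S_CSYM) (hS : S_SYMB) (hH : S_CHI)
    {n : ℕ} {α c M θ b κ : ℝ} (hα : 0 < α)
    (hc : 0 < c) (X : C(UnitAddTorus (Fin d), ℂ)) (hX : ∀ k, (X k).im ≤ -c)
    (h : ∀ k, X k - Complex.I ≠ 0) (h0 : ∀ k, X k ≠ 0) (hm : ‖mS X h‖ < 1) (hn : 1 ≤ n)
    (hb : 0 < b) (hκ : 0 ≤ κ) (hM : ∀ k, ‖(α : ℂ) / X k‖ ≤ M)
    (hθ : (∫ k, ‖(α : ℂ) / X k‖ ^ 2) ≤ θ) (hb1 : (∫ k, ‖(α : ℂ) / X k‖) ≤ b) (h1 : θ ≤ b * M)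
    (h2 : b ≤ M) (h3 : κ ^ 2 = b * M) (h4 : 16 * n * κ ≤ 1)
    (h5 : α / c * (2 * ((2 * n * κ) ^ n) ^ 2) ≤ b * κ) :
    ‖X - X * GS α X h * X + ((α : ℂ) * ∫ p, (α : ℂ) / X p) • 1‖ ≤ 12 * n * α * b * κ := by
  have hM0 : 0 ≤ M := (norm_nonneg _).trans (hM 0)
  set q := qS α X h0 with hq
  have hqM : ‖q‖ ≤ M := (ContinuousMap.norm_le _ hM0).2 hM
  have hqsM : ‖star q‖ ≤ M := (ContinuousMap.norm_le _ hM0).2 fun k => by
    show ‖star (q k)‖ ≤ M
    rw [norm_star]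
    exact hM k
  obtain ⟨c1, c2, c3, c4, c5⟩ := hH d q α M θ b κ hα hb.le hκ hqM hθ hb1 h1 h2 h3
  have hs1 : ∀ k, ‖(star q) k‖ = ‖(α : ℂ) / X k‖ := fun k => by
    show ‖star (q k)‖ = _
    rw [norm_star]
    rfl
  obtain ⟨s1, s2, -⟩ := hH d (star q) α M θ b κ hα hb.le hκ hqsM
    (by simpa only [hs1] using hθ) (by simpa only [hs1] using hb1) h1 h2 h3
  refine opr_bound hS _ _ (by positivity) fun w u hw hu => ?_
  set P := Pn (tp α) (Fin d → ℤ) with hP
  -- integrability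
  have ic : ∀ (q' : C(UnitAddTorus (Fin d), ℂ)), (∀ (k : ℕ) (u : l2 (Fin d → ℤ)) (x : Fin d → ℤ),
      Measurable fun v => ch q' v k u x) → ∀ (j : ℕ) (u : l2 (Fin d → ℤ)),
      Integrable (fun v => ch q' v j u) P ∧ Integrable (fun v => ‖ch q' v j u‖ ^ 2) P := by
    intro q' hm' j u
    have sm := sm_of _ (hm' j u)
    refine ⟨Integrable.of_bound sm.aestronglyMeasurable _
      (Eventually.of_forall fun v => ch_bound hD hO q' v j u), ?_⟩
    refine Integrable.of_bound (sm.norm.pow 2).aestronglyMeasurable ((‖q'‖ ^ j * ‖u‖) ^ 2)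
      (Eventually.of_forall fun v => ?_)
    rw [norm_pow, norm_norm]
    exact pow_le_pow_left₀ (norm_nonneg _) (ch_bound hD hO q' v j u) 2
  obtain ⟨ir, er⟩ := RR_exp hO hD hC hS hα hc X hX h hm (opr X u)
  have ir2 : Integrable (fun v => opr X (RR X h v (opr X u))) P :=
    (opr X).integrable_comp ir
  have er2 : ∫ v, opr X (RR X h v (opr X u)) ∂P = opr X (opr (GS α X h) (opr X u)) := by
    rw [(opr X).integral_comp_comm ir, er]
  set F : ((Fin d → ℤ) → ℝ) → ℂ := fun v => (inner ℂ w (opr X u) -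
    inner ℂ w (opr X (RR X h v (opr X u)))) - (α : ℂ) *
      ∑ j ∈ Finset.range (2 * n + 1), (-1) ^ j * inner ℂ w (ch q v j u) with hF
  have iw : ∀ j, Integrable (fun v => inner ℂ w (ch q v j u)) P := fun j =>
    (ic q c1 j u).1.const_inner w
  have iF : ∫ v, F v ∂P = (inner ℂ w (opr X u) -
      inner ℂ w (opr X (opr (GS α X h) (opr X u)))) - (α : ℂ) *
      ∑ j ∈ Finset.range (2 * n + 1), (-1) ^ j * ∫ v, inner ℂ w (ch q v j u) ∂P := by
    rw [hF, integral_sub, integral_sub, integral_const_mul, integral_finsetSum, integral_inner ir2,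
      er2]
    · simp only [integral_const_mul, integral_const]
      simp
    · intro j _
      exact (iw j).const_mul _
    · exact integrable_const _
    · exact ir2.const_inner w
    · exact (integrable_const _).sub (ir2.const_inner w)
    · exact (integrable_finsetSum _ fun j _ => (iw j).const_mul _).const_mul _
  have hK : ‖∫ v, F v ∂P‖ ≤ α * (b * κ) * (‖w‖ * ‖u‖) := by
    have hw0 : 0 < ‖w‖ := norm_pos_iff.2 hw
    have hu0 : 0 < ‖u‖ := norm_pos_iff.2 hu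
    have hg : Integrable (fun v => α ^ 2 / c * ((‖u‖ / ‖w‖) * ‖ch (star q) v n w‖ ^ 2 +
        (‖w‖ / ‖u‖) * ‖ch q v n u‖ ^ 2) / 2) P :=
      (((((ic _ s1 n w).2.const_mul _).add ((ic _ c1 n u).2.const_mul _)).const_mul _).div_const _)
    refine (norm_integral_le_of_norm_le hg ?_).trans ?_
    · filter_upwards [ae_Pn α d] with v hv
      have e1 := main_id hO hD hC hα X h h0 hm hv n
      have e2 := congrArg (fun T : l2 (Fin d → ℤ) →L[ℂ] l2 (Fin d → ℤ) => inner ℂ w (T u)) e1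
      have e3 : inner ℂ w ((opr X - opr X * RR X h v * opr X) u) =
          inner ℂ w (opr X u) - inner ℂ w (opr X (RR X h v (opr X u))) := by
        simp only [ContinuousLinearMap.sub_apply, ContinuousLinearMap.mul_apply, inner_sub_right]
      have e4 : inner ℂ w (((α : ℂ) • ((∑ j ∈ Finset.range (2 * n + 1),
          (-1) ^ j * ch (qS α X h0) v j) - ch (qS α X h0) v n * ((α : ℂ) • RR X h v) *
            ch (qS α X h0) v n)) u) = (α : ℂ) * ((∑ j ∈ Finset.range (2 * n + 1),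
          (-1) ^ j * inner ℂ w (ch q v j u)) - (α : ℂ) *
            inner ℂ (ch (star q) v n w) (RR X h v (ch q v n u))) := by
        rw [← ch_adj hD hO hS]
        simp only [ContinuousLinearMap.smul_apply, ContinuousLinearMap.sub_apply,
          ContinuousLinearMap.mul_apply, inner_smul_right, inner_sub_right]
        congr 2
        · rw [ContinuousLinearMap.sum_apply, inner_sum]
          refine Finset.sum_congr rfl fun j _ => ?_
          rcases Nat.even_or_odd j with hj | hj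
          · rw [hj.neg_one_pow, hj.neg_one_pow, one_mul, one_mul]
          · rw [hj.neg_one_pow, hj.neg_one_pow, neg_one_mul, neg_one_mul,
              ContinuousLinearMap.neg_apply, inner_neg_right]
        · rw [map_smul, inner_smul_right]
      rw [e3, e4] at e2
      have e5 : F v = -((α : ℂ) * ((α : ℂ) *
          inner ℂ (ch (star q) v n w) (RR X h v (ch q v n u)))) := by
        simp only [hF]
        rw [e2]
        ring
      rw [e5, norm_neg, norm_mul, norm_mul, Complex.norm_real, Real.norm_of_nonneg hα.le]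
      have e6 := norm_inner_le_norm (𝕜 := ℂ) (ch (star q) v n w) (RR X h v (ch q v n u))
      have e7 := RR_norm hO hD hC hS hα hc X hX h hm hv (ch q v n u)
      have e8 : ‖ch (star q) v n w‖ * ‖ch q v n u‖ ≤ ((‖u‖ / ‖w‖) * ‖ch (star q) v n w‖ ^ 2 +
        (‖w‖ / ‖u‖) * ‖ch q v n u‖ ^ 2) / 2 := by
        have : ((‖u‖ / ‖w‖) * ‖ch (star q) v n w‖ ^ 2 +
            (‖w‖ / ‖u‖) * ‖ch q v n u‖ ^ 2) / 2 - ‖ch (star q) v n w‖ * ‖ch q v n u‖ =
            (‖u‖ * ‖ch (star q) v n w‖ - ‖w‖ * ‖ch q v n u‖) ^ 2 / (2 * (‖w‖ * ‖u‖)) := by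
          field_simp
          ring
        have h9 : 0 ≤ (‖u‖ * ‖ch (star q) v n w‖ - ‖w‖ * ‖ch q v n u‖) ^ 2 /
            (2 * (‖w‖ * ‖u‖)) := by positivity
        linarith
      calc α * (α * ‖inner ℂ (ch (star q) v n w) (RR X h v (ch q v n u))‖)
          ≤ α * (α * (‖ch (star q) v n w‖ * (‖ch q v n u‖ / c))) := by
            gcongr
            exact e6.trans (mul_le_mul_of_nonneg_left e7 (norm_nonneg _))
        _ = α ^ 2 / c * (‖ch (star q) v n w‖ * ‖ch q v n u‖) := by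
            field_simp
        _ ≤ α ^ 2 / c * (((‖u‖ / ‖w‖) * ‖ch (star q) v n w‖ ^ 2 +
            (‖w‖ / ‖u‖) * ‖ch q v n u‖ ^ 2) / 2) := by gcongr
        _ = _ := by ring
    · have i1 := s2 n w hn
      have i2 := c2 n u hn
      have e1 : ∫ v, (α ^ 2 / c * ((‖u‖ / ‖w‖) * ‖ch (star q) v n w‖ ^ 2 +
          (‖w‖ / ‖u‖) * ‖ch q v n u‖ ^ 2) / 2) ∂P =
          α ^ 2 / c * ((‖u‖ / ‖w‖) * (∫ v, ‖ch (star q) v n w‖ ^ 2 ∂P) +
          (‖w‖ / ‖u‖) * ∫ v, ‖ch q v n u‖ ^ 2 ∂P) / 2 := by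
        rw [integral_div, integral_const_mul, integral_add ((ic _ s1 n w).2.const_mul _)
          ((ic _ c1 n u).2.const_mul _), integral_const_mul, integral_const_mul]
      rw [e1]
      calc α ^ 2 / c * ((‖u‖ / ‖w‖) * (∫ v, ‖ch (star q) v n w‖ ^ 2 ∂P) +
          (‖w‖ / ‖u‖) * ∫ v, ‖ch q v n u‖ ^ 2 ∂P) / 2
          ≤ α ^ 2 / c * ((‖u‖ / ‖w‖) * (2 * ((2 * n * κ) ^ n) ^ 2 * ‖w‖ ^ 2) +
          (‖w‖ / ‖u‖) * (2 * ((2 * n * κ) ^ n) ^ 2 * ‖u‖ ^ 2)) / 2 := by gcongr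
        _ = α * (α / c * (2 * ((2 * n * κ) ^ n) ^ 2)) * (‖w‖ * ‖u‖) := by
            field_simp
            ring
        _ ≤ α * (b * κ) * (‖w‖ * ‖u‖) := by gcongr
  -- the operator
  have eT : inner ℂ w (opr (X - X * GS α X h * X + ((α : ℂ) * ∫ p, (α : ℂ) / X p) • 1) u) =
      (inner ℂ w (opr X u) - inner ℂ w (opr X (opr (GS α X h) (opr X u)))) +
        ((α : ℂ) * ∫ p, (α : ℂ) / X p) * inner ℂ w u := by
    have : opr (X - X * GS α X h * X + ((α : ℂ) * ∫ p, (α : ℂ) / X p) • 1) =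
        opr X - opr X * opr (GS α X h) * opr X + ((α : ℂ) * ∫ p, (α : ℂ) / X p) • 1 := by
      rw [← OA_apply hO, map_add, map_sub, map_mul, map_mul, map_smul, map_one]
      rfl
    rw [this]
    simp only [ContinuousLinearMap.sub_apply, ContinuousLinearMap.add_apply,
      ContinuousLinearMap.smul_apply, ContinuousLinearMap.one_apply,
      ContinuousLinearMap.mul_apply, inner_sub_right, inner_add_right, inner_smul_right]
  have esum : ∑ j ∈ Finset.range (2 * n + 1), (-1) ^ j * ∫ v, inner ℂ w (ch q v j u) ∂P =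
      -((∫ p, (α : ℂ) / X p) * inner ℂ w u) +
        ∑ j ∈ Finset.Ico 2 (2 * n + 1), (-1) ^ j * ∫ v, inner ℂ w (ch q v j u) ∂P := by
    rw [Finset.range_eq_Ico, Finset.sum_eq_sum_Ico_succ_bot (by omega),
      Finset.sum_eq_sum_Ico_succ_bot (by omega), c5, c4]
    simp only [pow_zero, mul_zero, zero_add, pow_one, neg_one_mul]
    rfl
  have eT2 : inner ℂ w (opr (X - X * GS α X h * X + ((α : ℂ) * ∫ p, (α : ℂ) / X p) • 1) u) =
      (∫ v, F v ∂P) + (α : ℂ) *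
        ∑ j ∈ Finset.Ico 2 (2 * n + 1), (-1) ^ j * ∫ v, inner ℂ w (ch q v j u) ∂P := by
    rw [eT, iF, esum]
    ring
  rw [eT2]
  have hsum : ‖∑ j ∈ Finset.Ico 2 (2 * n + 1), (-1) ^ j * ∫ v, inner ℂ w (ch q v j u) ∂P‖ ≤
      (2 * b * (16 / 3 * n * κ)) * (‖w‖ * ‖u‖) := by
    have hy0 : 0 ≤ 4 * n * κ := by positivity
    have hy4 : 4 * n * κ ≤ 1 / 4 := by linarith
    calc ‖∑ j ∈ Finset.Ico 2 (2 * n + 1), (-1) ^ j * ∫ v, inner ℂ w (ch q v j u) ∂P‖
        ≤ ∑ j ∈ Finset.Ico 2 (2 * n + 1), ‖(-1) ^ j * ∫ v, inner ℂ w (ch q v j u) ∂P‖ :=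
          norm_sum_le _ _
      _ ≤ ∑ j ∈ Finset.Ico 2 (2 * n + 1), (2 * b * (4 * n * κ) ^ (j - 1)) * (‖w‖ * ‖u‖) := by
          refine Finset.sum_le_sum fun j hj => ?_
          rw [Finset.mem_Ico] at hj
          rw [norm_mul, norm_pow, norm_neg, norm_one, one_pow, one_mul]
          refine (c3 j u w (by omega)).trans ?_
          have hj2 : (j : ℝ) ≤ 2 * n := by
            have : j ≤ 2 * n := by omega
            exact_mod_cast this
          have : 2 * (j : ℝ) * κ ≤ 4 * n * κ := by nlinarith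
          have h6 : (2 * (j : ℝ) * κ) ^ (j - 1) ≤ (4 * n * κ) ^ (j - 1) :=
            pow_le_pow_left₀ (by positivity) this _
          gcongr
      _ = 2 * b * (∑ j ∈ Finset.Ico 2 (2 * n + 1), (4 * n * κ) ^ (j - 1)) * (‖w‖ * ‖u‖) := by
          rw [Finset.mul_sum, Finset.sum_mul]
      _ ≤ (2 * b * (16 / 3 * n * κ)) * (‖w‖ * ‖u‖) := by
          have h7 := geo (4 * n * κ) hy0 hy4 (2 * n - 1)
          rw [show 2 * n - 1 + 2 = 2 * n + 1 by omega] at h7
          have h8 : 4 / 3 * (4 * n * κ) * (1 - (4 * n * κ) ^ (2 * n - 1)) ≤ 16 / 3 * n * κ := by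
            have : 0 ≤ (4 * n * κ) ^ (2 * n - 1) := by positivity
            nlinarith
          have h9 := h7.trans h8
          gcongr
  refine (norm_add_le _ _).trans ?_
  rw [norm_mul, Complex.norm_real, Real.norm_of_nonneg hα.le]
  have hn1 : (1 : ℝ) ≤ n := by exact_mod_cast hn
  have hwu : 0 ≤ ‖w‖ * ‖u‖ := by positivity
  calc ‖∫ v, F v ∂P‖ + α * ‖∑ j ∈ Finset.Ico 2 (2 * n + 1),
        (-1) ^ j * ∫ v, inner ℂ w (ch q v j u) ∂P‖
      ≤ α * (b * κ) * (‖w‖ * ‖u‖) + α * ((2 * b * (16 / 3 * n * κ)) * (‖w‖ * ‖u‖)) := by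
        gcongr
    _ = (α * b * κ * (1 + 32 / 3 * n)) * (‖w‖ * ‖u‖) := by ring
    _ ≤ (12 * n * α * b * κ) * (‖w‖ * ‖u‖) := by
        have h10 : α * b * κ * (1 + 32 / 3 * n) ≤ α * b * κ * (12 * n) := by
          apply mul_le_mul_of_nonneg_left _ (by positivity)
          linarith
        have : α * b * κ * (12 * n) = 12 * n * α * b * κ := by ring
        rw [this] at h10
        gcongr

end

end Pool.Agent.N916.HB
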